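import Pool.Agent.H24.AB.All

/-!
# The block-free form of the Alperin–McKay conjecture

(claim file of the former hand-in BlockFreeForm:)

Proves: For a subgroup D of a finite group G let K_D(G) be the number of irreducible characters of height 0 in all l-blocks of G with defect group D. Let 𝓓 be a class of groups closed under isomorphism and direct products, containing C_l (e.g. all, or the abelian groups), n≥2 prime to l. Equivalent: (1) for all G and D≤G in 𝓓, the multisets of k0(b), b an l-block of G with defect group D, and of k0(B), B an l-block of N_G(D) with defect group D, coincide; (2) K_D(G)=K_D(N_G(D)) for all such G, D; (3) K_D(G)≡K_D(N_G(D)) mod n for all such G, D; (4) for each ε>0 and |G| large, K_D(G) and K_D(N_G(D)) are congruent mod n or agree up to a factor |G|^ε.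
Definitions: Irr=complex irreducible characters; Cong=congruence mod 𝔪, a maximal ideal over l of the algebraic integers; cen=central character; SameBlock=congruent central characters; IsDefect D: l-group, Sylow in C(x) for some x with cen≢0, conjugate into C(x) for all such x; k0=number of height 0 characters in the block; Hz, tot=K_D; nb k=number of blocks with defect group D and k0=k; Tot P: P(K_D(G),K_D(N_G(D))) for all D in 𝓓; Closed=the conditions on 𝓓.
Relation: partial. The block-free total form of Alperin-McKay (as in McKay's conjecture) gives k0(b)=k0(B) up to a bijection of the blocks with defect group D. New as far as we know; uses G wr C_l at D^l.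

`tot ℓ 𝔪 D` is the number of irreducible characters of height zero in all `ℓ`-blocks of the group
with defect group `D`, and `nb ℓ 𝔪 D k` is the number of its `ℓ`-blocks with defect group `D` and
exactly `k` characters of height zero.
-/

open AMx AMq AMb
open scoped Classical

namespace Pool.Agent.H63.Kept.BlockFreeForm

theorem result (ℓ : ℕ) [Fact ℓ.Prime] (𝔪 : Ideal (integralClosure ℤ ℂ)) (hm : 𝔪.IsMaximal)
    (hl : (ℓ : integralClosure ℤ ℂ) ∈ 𝔪)
    -- a class of defect groups, for instance all groups or all abelian groups
    (𝓓 : (D : Type) → [Group D] → Prop) (h𝓓 : Closed ℓ 𝓓)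
    -- a modulus prime to `ℓ`
    (n : ℕ) (hn : n.Coprime ℓ) (hn1 : n ≠ 1) :
    -- the multisets of the `k₀(b)` and of the `k₀(B)` coincide, for all `G` and all `D ≤ G`
    [∀ (G : Type) [Group G] [Fintype G] (D : Subgroup G), 𝓓 D →
        ∀ k, nb ℓ 𝔪 D k = nb ℓ 𝔪 (D.subgroupOf (Subgroup.normalizer (D : Set G))) k,
    -- the total numbers of characters of height zero coincide
     ∀ (G : Type) [Group G] [Fintype G], Tot ℓ 𝔪 𝓓 (fun a b => a = b) G,
    -- they are congruent modulo `n`
     ∀ (G : Type) [Group G] [Fintype G], Tot ℓ 𝔪 𝓓 (fun a b => a ≡ b [MOD n]) G,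
    -- they are congruent modulo `n` or agree up to a factor `|G| ^ ε`
     ∀ ε : ℝ, 0 < ε → ∃ n₀ : ℕ, ∀ (G : Type) [Group G] [Fintype G], n₀ ≤ Nat.card G →
        Tot ℓ 𝔪 𝓓 (fun a b => a ≡ b [MOD n] ∨
          ((a : ℝ) ≤ (Nat.card G : ℝ) ^ ε * b ∧ (b : ℝ) ≤ (Nat.card G : ℝ) ^ ε * a)) G].TFAE :=
  final t_BM t_BN t_BS w4 w6 t_BP t_BL t_BT t_BZ ℓ 𝔪 hm hl 𝓓 h𝓓 n hn hn1

end Pool.Agent.H63.Kept.BlockFreeForm
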